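import Mathlib.Analysis.InnerProductSpace.PiL2
import Mathlib.Analysis.SpecialFunctions.Trigonometric.Basic
import Mathlib.Data.Finset.Powerset
import Mathlib.Tactic

/-!
# Planar sets with distance multiplicities `(n-1, n-2, …, 1)` (MP_9c346b_co)

The points `(i / 2, i mod 2)`, `0 ≤ i < n`, form a piece of an orbit of a glide reflection; their
distances depend only on `|i - j|`.
-/

namespace Pool.Agent.Results.MP_9c346b_co.GlideReflectionOrbit

/-- The Euclidean plane. -/
abbrev P : Type := EuclideanSpace ℝ (Fin 2)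

/-- The set of distances occurring in `X`. -/
noncomputable def distances (X : Finset P) : Finset ℝ :=
  X.offDiag.image fun q => dist q.1 q.2

open Classical in
/-- The multiplicity of `d` in `X`: the number of two-element subsets of `X` at distance `d`. -/
noncomputable def mult (X : Finset P) (d : ℝ) : ℕ :=
  ((X.powersetCard 2).filter fun s => ∃ x y : P, x ≠ y ∧ s = {x, y} ∧ dist x y = d).card

/-- Type (A): equally spaced collinear points. -/
def TypeA (X : Finset P) : Prop :=
  ∃ p v : P, v ≠ 0 ∧ X = (Finset.range X.card).image fun j : ℕ => p + (j : ℝ) • v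

/-- Type (B): points equally spaced along an arc of a circle. -/
def TypeB (X : Finset P) : Prop :=
  ∃ (c : P) (r α θ : ℝ), 0 < r ∧ 0 < ((X.card : ℝ) - 1) * θ ∧
    ((X.card : ℝ) - 1) * θ < 2 * Real.pi ∧
    X = (Finset.range X.card).image fun j : ℕ =>
      c + r • (!₂[Real.cos (α + j * θ), Real.sin (α + j * θ)] : P)

/-- Type (C): the centre of a circle and points equally spaced along an arc of it. -/
def TypeC (X : Finset P) : Prop :=
  ∃ (c : P) (r α θ : ℝ), 0 < r ∧ 0 < ((X.card : ℝ) - 2) * θ ∧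
    ((X.card : ℝ) - 2) * θ < 2 * Real.pi ∧
    X = insert c ((Finset.range (X.card - 1)).image fun j : ℕ =>
      c + r • (!₂[Real.cos (α + j * θ), Real.sin (α + j * θ)] : P))

/-- The points of the zigzag strip. -/
noncomputable def pt (i : ℕ) : P := !₂[(i : ℝ) / 2, ((i % 2 : ℕ) : ℝ)]

lemma pt_zero (i : ℕ) : pt i 0 = (i : ℝ) / 2 := by simp [pt]
lemma pt_one (i : ℕ) : pt i 1 = ((i % 2 : ℕ) : ℝ) := by simp [pt]

/-- The distance of two points of the strip whose indices differ by `d`. -/
noncomputable def φ (d : ℕ) : ℝ := Real.sqrt (((d ^ 2 + 4 * (d % 2) : ℕ) : ℝ) / 4)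

lemma dist_pt (i d : ℕ) : dist (pt i) (pt (i + d)) = φ d := by
  rw [EuclideanSpace.dist_eq, φ]
  congr 1
  simp only [Fin.sum_univ_two, pt_zero, pt_one, Real.dist_eq, sq_abs]
  rcases Nat.mod_two_eq_zero_or_one i with h | h <;>
    rcases Nat.mod_two_eq_zero_or_one d with h' | h' <;>
    rw [Nat.add_mod, h, h'] <;> push_cast <;> norm_num <;> ring

lemma φ_injective : Function.Injective φ := by
  intro a b h
  unfold φ at h
  rw [Real.sqrt_inj (by positivity) (by positivity)] at h
  have h1 : ((a ^ 2 + 4 * (a % 2) : ℕ) : ℝ) = ((b ^ 2 + 4 * (b % 2) : ℕ) : ℝ) := by linarith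
  have h2 : a ^ 2 + 4 * (a % 2) = b ^ 2 + 4 * (b % 2) := by exact_mod_cast h1
  rcases Nat.mod_two_eq_zero_or_one a with ha | ha <;>
    rcases Nat.mod_two_eq_zero_or_one b with hb | hb
  · rw [ha, hb] at h2
    exact Nat.pow_left_injective (n := 2) (by norm_num) (by simpa using h2)
  · exfalso
    have e1 : a ^ 2 % 2 = 0 := by rw [Nat.pow_mod, ha]
    have e2 : b ^ 2 % 2 = 1 := by rw [Nat.pow_mod, hb]
    omega
  · exfalso
    have e1 : a ^ 2 % 2 = 1 := by rw [Nat.pow_mod, ha]
    have e2 : b ^ 2 % 2 = 0 := by rw [Nat.pow_mod, hb]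
    omega
  · rw [ha, hb] at h2
    exact Nat.pow_left_injective (n := 2) (by norm_num) (by simpa using h2)

lemma pt_injective : Function.Injective pt := by
  intro a b h
  have h1 : pt a 0 = pt b 0 := by rw [h]
  rw [pt_zero, pt_zero] at h1
  have h2 : (a : ℝ) = b := by linarith
  exact_mod_cast h2

/-- The zigzag strip with `n` points. -/
noncomputable def strip (n : ℕ) : Finset P := (Finset.range n).image pt

lemma card_strip (n : ℕ) : (strip n).card = n := by
  rw [strip, Finset.card_image_of_injective _ pt_injective, Finset.card_range]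

lemma mem_strip {n : ℕ} {x : P} : x ∈ strip n ↔ ∃ i, i < n ∧ pt i = x := by
  simp [strip]

lemma distances_strip (n : ℕ) : distances (strip n) = (Finset.Icc 1 (n - 1)).image φ := by
  ext d
  simp only [distances, Finset.mem_image, Finset.mem_offDiag, Finset.mem_Icc]
  constructor
  · rintro ⟨⟨x, y⟩, ⟨hx, hy, hxy⟩, rfl⟩
    obtain ⟨i, hi, rfl⟩ := mem_strip.1 hx
    obtain ⟨j, hj, rfl⟩ := mem_strip.1 hy
    rcases lt_trichotomy i j with h | h | h
    · obtain ⟨e, rfl⟩ := Nat.exists_eq_add_of_lt h
      refine ⟨e + 1, by omega, ?_⟩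
      rw [← dist_pt i (e + 1)]
      rfl
    · exact absurd (by rw [h]) hxy
    · obtain ⟨e, rfl⟩ := Nat.exists_eq_add_of_lt h
      refine ⟨e + 1, by omega, ?_⟩
      rw [← dist_pt j (e + 1), dist_comm]
      rfl
  · rintro ⟨e, he, rfl⟩
    refine ⟨(pt 0, pt (0 + e)), ⟨mem_strip.2 ⟨0, by omega, rfl⟩, mem_strip.2 ⟨0 + e, by omega, rfl⟩,
      fun h => ?_⟩, dist_pt 0 e⟩
    have := pt_injective h
    omega

lemma mult_strip (n d : ℕ) (hd : 1 ≤ d) : mult (strip n) (φ d) = n - d := by
  classical
  unfold mult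
  have h : ((strip n).powersetCard 2).filter
      (fun s => ∃ x y : P, x ≠ y ∧ s = {x, y} ∧ dist x y = φ d) =
      (Finset.range (n - d)).image fun i => ({pt i, pt (i + d)} : Finset P) := by
    ext s
    simp only [Finset.mem_filter, Finset.mem_powersetCard, Finset.mem_image, Finset.mem_range]
    constructor
    · rintro ⟨⟨hs, -⟩, x, y, hxy, rfl, hdist⟩
      have hx : x ∈ strip n := hs (by simp)
      have hy : y ∈ strip n := hs (by simp)
      obtain ⟨i, hi, rfl⟩ := mem_strip.1 hx
      obtain ⟨j, hj, rfl⟩ := mem_strip.1 hy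
      rcases lt_trichotomy i j with h | h | h
      · obtain ⟨e, rfl⟩ := Nat.exists_eq_add_of_lt h
        have h1 : dist (pt i) (pt (i + (e + 1))) = φ d := hdist
        rw [dist_pt] at h1
        have h2 := φ_injective h1
        refine ⟨i, by omega, ?_⟩
        rw [← h2]
        rfl
      · exact absurd (by rw [h]) hxy
      · obtain ⟨e, rfl⟩ := Nat.exists_eq_add_of_lt h
        have h1 : dist (pt (j + (e + 1))) (pt j) = φ d := hdist
        rw [dist_comm, dist_pt] at h1
        have h2 := φ_injective h1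
        refine ⟨j, by omega, ?_⟩
        rw [← h2, Finset.pair_comm]
        rfl
    · rintro ⟨i, hi, rfl⟩
      have hne : pt i ≠ pt (i + d) := fun h => by have := pt_injective h; omega
      refine ⟨⟨?_, Finset.card_pair hne⟩, pt i, pt (i + d), hne, rfl, dist_pt i d⟩
      intro z hz
      rw [Finset.mem_insert, Finset.mem_singleton] at hz
      rcases hz with rfl | rfl
      · exact mem_strip.2 ⟨i, by omega, rfl⟩
      · exact mem_strip.2 ⟨i + d, by omega, rfl⟩
  rw [h, Finset.card_image_of_injective, Finset.card_range]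
  intro i j hij
  have h1 : pt i ∈ ({pt j, pt (j + d)} : Finset P) := by
    have : pt i ∈ ({pt i, pt (i + d)} : Finset P) := by simp
    simp only at hij
    rwa [hij] at this
  have h2 : pt j ∈ ({pt i, pt (i + d)} : Finset P) := by
    have : pt j ∈ ({pt j, pt (j + d)} : Finset P) := by simp
    simp only at hij
    rwa [← hij] at this
  rw [Finset.mem_insert, Finset.mem_singleton] at h1 h2
  rcases h1 with h1 | h1
  · exact pt_injective h1
  · rcases h2 with h2 | h2
    · exact (pt_injective h2).symm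
    · have e1 := pt_injective h1
      have e2 := pt_injective h2
      omega

/-- Three equally spaced points of a horizontal line are not equidistant from any point. -/
lemma not_equidistant {c : P} {ρ : ℝ} {a b : ℝ}
    (h0 : (a - c 0) ^ 2 + (b - c 1) ^ 2 = ρ) (h1 : (a + 1 - c 0) ^ 2 + (b - c 1) ^ 2 = ρ)
    (h2 : (a + 2 - c 0) ^ 2 + (b - c 1) ^ 2 = ρ) : False := by
  nlinarith

lemma circle_sq (c : P) (r t : ℝ) :
    ((c + r • (!₂[Real.cos t, Real.sin t] : P)) 0 - c 0) ^ 2 +
      ((c + r • (!₂[Real.cos t, Real.sin t] : P)) 1 - c 1) ^ 2 = r ^ 2 := by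
  simp
  have := Real.sin_sq_add_cos_sq t
  nlinarith

/-- **Main theorem.** For every `n ≥ 6` there is an `n`-point set in the plane whose distance
multiplicities are exactly `n - 1, n - 2, …, 1` and which is of none of the types (A), (B), (C). -/
theorem result : ∀ n : ℕ, 6 ≤ n → ∃ X : Finset P, X.card = n ∧
    (distances X).val.map (mult X) = (Finset.Icc 1 (n - 1)).val ∧
    ¬ TypeA X ∧ ¬ TypeB X ∧ ¬ TypeC X := by
  intro n hn
  refine ⟨strip n, card_strip n, ?_, ?_, ?_, ?_⟩
  · rw [distances_strip, Finset.image_val_of_injOn φ_injective.injOn, Multiset.map_map]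
    have h1 : Multiset.map (mult (strip n) ∘ φ) (Finset.Icc 1 (n - 1)).val =
        Multiset.map (fun d => n - d) (Finset.Icc 1 (n - 1)).val := by
      apply Multiset.map_congr rfl
      intro d hd
      rw [Finset.mem_val, Finset.mem_Icc] at hd
      exact mult_strip n d hd.1
    rw [h1, ← Finset.image_val_of_injOn]
    · congr 1
      ext d
      simp only [Finset.mem_image, Finset.mem_Icc]
      constructor
      · rintro ⟨e, he, rfl⟩
        omega
      · intro hd
        exact ⟨n - d, by omega, by omega⟩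
    · intro a ha b hb hab
      rw [Finset.mem_coe, Finset.mem_Icc] at ha hb
      simp only at hab
      omega
  · rintro ⟨p, v, -, h⟩
    have key : ∀ i, i < n → ∃ j : ℕ, pt i = p + (j : ℝ) • v := by
      intro i hi
      have h1 : pt i ∈ strip n := mem_strip.2 ⟨i, hi, rfl⟩
      rw [h, Finset.mem_image] at h1
      obtain ⟨j, -, hj⟩ := h1
      exact ⟨j, hj.symm⟩
    obtain ⟨j0, h0⟩ := key 0 (by omega)
    obtain ⟨j1, h1⟩ := key 1 (by omega)
    obtain ⟨j2, h2⟩ := key 2 (by omega)
    have a0 : pt 0 0 = p 0 + j0 * v 0 := by rw [h0]; simp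
    have a1 : pt 0 1 = p 1 + j0 * v 1 := by rw [h0]; simp
    have b0 : pt 1 0 = p 0 + j1 * v 0 := by rw [h1]; simp
    have b1 : pt 1 1 = p 1 + j1 * v 1 := by rw [h1]; simp
    have c0 : pt 2 0 = p 0 + j2 * v 0 := by rw [h2]; simp
    have c1 : pt 2 1 = p 1 + j2 * v 1 := by rw [h2]; simp
    rw [pt_zero] at a0 b0 c0
    rw [pt_one] at a1 b1 c1
    norm_num at a0 a1 b0 b1 c0 c1
    have e1 : ((j1 : ℝ) - j0) * v 0 = 1 / 2 := by linarith
    have e2 : ((j1 : ℝ) - j0) * v 1 = 1 := by linarith
    have e3 : ((j2 : ℝ) - j0) * v 0 = 1 := by linarith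
    have e4 : ((j2 : ℝ) - j0) * v 1 = 0 := by linarith
    have e5 : (((j1 : ℝ) - j0) * v 1) * (((j2 : ℝ) - j0) * v 0) =
        (((j1 : ℝ) - j0) * v 0) * (((j2 : ℝ) - j0) * v 1) := by ring
    rw [e1, e2, e3, e4] at e5
    norm_num at e5
  · rintro ⟨c, r, α, θ, -, -, -, h⟩
    have key : ∀ i, i < n → (pt i 0 - c 0) ^ 2 + (pt i 1 - c 1) ^ 2 = r ^ 2 := by
      intro i hi
      have h1 : pt i ∈ strip n := mem_strip.2 ⟨i, hi, rfl⟩
      rw [h, Finset.mem_image] at h1
      obtain ⟨j, -, hj⟩ := h1
      rw [← hj]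
      exact circle_sq c r _
    have h0 := key 0 (by omega)
    have h2 := key 2 (by omega)
    have h4 := key 4 (by omega)
    rw [pt_zero, pt_one] at h0 h2 h4
    norm_num at h0 h2 h4
    refine not_equidistant (c := c) (ρ := r ^ 2) (a := 0) (b := 0) ?_ ?_ ?_ <;> nlinarith
  · rintro ⟨c, r, α, θ, -, -, -, h⟩
    have key : ∀ i, i < n → pt i ≠ c → (pt i 0 - c 0) ^ 2 + (pt i 1 - c 1) ^ 2 = r ^ 2 := by
      intro i hi hne
      have h1 : pt i ∈ strip n := mem_strip.2 ⟨i, hi, rfl⟩
      rw [h, Finset.mem_insert, Finset.mem_image] at h1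
      rcases h1 with h1 | ⟨j, -, hj⟩
      · exact absurd h1 hne
      · rw [← hj]
        exact circle_sq c r _
    by_cases hc : c = pt 0 ∨ c = pt 2 ∨ c = pt 4
    · have hne : ∀ i, i ∈ ({1, 3, 5} : Finset ℕ) → pt i ≠ c := by
        intro i hi hic
        rcases hc with h | h | h <;>
        · rw [h] at hic
          have := pt_injective hic
          subst this
          revert hi
          decide
      have h0 := key 1 (by omega) (hne 1 (by decide))
      have h2 := key 3 (by omega) (hne 3 (by decide))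
      have h4 := key 5 (by omega) (hne 5 (by decide))
      rw [pt_zero, pt_one] at h0 h2 h4
      norm_num at h0 h2 h4
      refine not_equidistant (c := c) (ρ := r ^ 2) (a := 1 / 2) (b := 1) ?_ ?_ ?_ <;> nlinarith
    · push Not at hc
      have h0 := key 0 (by omega) (Ne.symm hc.1)
      have h2 := key 2 (by omega) (Ne.symm hc.2.1)
      have h4 := key 4 (by omega) (Ne.symm hc.2.2)
      rw [pt_zero, pt_one] at h0 h2 h4
      norm_num at h0 h2 h4
      refine not_equidistant (c := c) (ρ := r ^ 2) (a := 0) (b := 0) ?_ ?_ ?_ <;> nlinarith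

end Pool.Agent.Results.MP_9c346b_co.GlideReflectionOrbit
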